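import Pool.Agent.Y475.Sy.Rad

set_option autoImplicit false

open Set Filter Topology
open scoped ContDiff

namespace Pool.Agent.Results.MP_2dff6e_gt.EveryDimension

open Pool.Agent.Results.MP_2dff6e_gt.PuncturedPlane (SymplecticOn SympC SympC0 C0Tendsto
  IsSymplectomorphism)
open Pool.Agent.Y475.Sy

variable {n m : ℕ}

/-- `p 1, …, p m` are distinct punctures of `M`: points off `M` a punctured neighbourhood of which
is in `M`. -/
def Punctures (M : Set (E n)) (p : Fin m → E n) : Prop :=
  Function.Injective p ∧ ∀ i, p i ∉ M ∧ ∃ ρ > 0, Metric.ball (p i) ρ \ {p i} ⊆ M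

/-- `ψ` is a limit of elements of the identity component: in the `C⁰`-topology, moreover uniformly
on the whole of `M`, and the sequence is eventually equal to `ψ` on each compact subset of `M`. -/
def IsLimit (M : Set (E n)) (ψ : E n → E n) : Prop :=
  ∃ φ : ℕ → E n → E n, (∀ j, φ j ∈ SympC M (omega n) ∧ φ j ∈ SympC0 M (omega n)) ∧
    C0Tendsto M φ ψ ∧ TendstoUniformlyOn φ ψ atTop M ∧
    ∀ L ⊆ M, IsCompact L → ∀ᶠ j in atTop, EqOn (φ j) ψ L

/-- `ψ` and `χ` are in the same coset modulo the identity component. -/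
def SameCoset (M : Set (E n)) (ψ χ : E n → E n) : Prop :=
  ∃ φ ∈ SympC0 M (omega n), ∀ x ∈ M, ψ x = φ (χ x)

/-- An element of the identity component stays in it when it is changed off `M`. -/
lemma congr_SympC0 {M : Set (E n)} {f g : E n → E n} (hf : f ∈ SympC0 M (omega n))
    (hfg : ∀ x ∈ M, g x = f x) : g ∈ SympC0 M (omega n) := by
  obtain ⟨K, hKM, hK, Φ, hΦ, hS, h0, h1⟩ := hf
  exact ⟨K, hKM, hK, Φ, hΦ, hS, h0, fun x hx => by rw [h1 x hx, hfg x hx]⟩

/-- Let `M` be an open subset of `ℂⁿ`, `n ≥ 1`, with its standard symplectic form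
`ω = ∑ dxⱼ ∧ dyⱼ`, and let `p 1, …, p m` be distinct punctures of `M` (points off `M` a punctured
neighbourhood of which is in `M`). There is an action `ψ` of the group `ℤᵐ` on `M` by compactly
supported symplectomorphisms such that

* `ψ k` is in the identity component `Symp_{c,0}(M, ω)` only for `k = 0`, and for `k ≠ l` the
  cosets of `ψ k` and `ψ l` modulo `Symp_{c,0}(M, ω)` are different;
* every `ψ k` is in the `C⁰`-closure of `Symp_{c,0}(M, ω)`: it is a limit, uniform on compact
  subsets of `M` and even on the whole of `M`, of a sequence of elements of `Symp_{c,0}(M, ω)`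
  which on each compact subset of `M` is eventually equal to `ψ k`.

So as soon as `M` has one puncture, `Symp_{c,0}(M, ω)` is not `C⁰`-closed in `Symp_c(M, ω)`. For
`M = ℂⁿ \ {0}` this is a counterexample in every dimension `2n`, simply connected for `n ≥ 2`. -/
theorem result (n : ℕ) (hn : 0 < n) (m : ℕ) (M : Set (E n)) (hM : IsOpen M)
    (p : Fin m → E n) (hp : Punctures M p) :
    SymplecticOn M (omega n) ∧
    ∃ ψ : (Fin m → ℤ) → E n → E n,
      (∀ x, ψ 0 x = x) ∧ (∀ k l x, ψ k (ψ l x) = ψ (k + l) x) ∧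
      (∀ k, ψ k ∈ SympC M (omega n) ∧ IsLimit M (ψ k) ∧ (ψ k ∈ SympC0 M (omega n) ↔ k = 0)) ∧
      ∀ k l, SameCoset M (ψ k) (ψ l) ↔ k = l := by
  obtain ⟨R, u, hsm, hdir⟩ := exists_small (M := M) hn hp.1 hp.2
  set c : ℝ := 2 / R ^ 2 with hc
  have h0 : ∀ k, tws p (Ap c k) ∈ SympC0 M (omega n) ↔ k = 0 := by
    intro k
    constructor
    · exact fun h => not_isotopic hM hn hsm hc hdir h
    · rintro rfl
      exact id_mem_SympC0 fun z _ => tws_zero p c z
  have hadd := fun k l x => tws_add hsm hc k l x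
  refine ⟨symplectic_omega hM, fun k => tws p (Ap c k), fun x => tws_zero p c x, hadd,
    fun k => ⟨Ap_mem hsm hc k, ?_, h0 k⟩, ?_⟩
  · refine ⟨fun j => tws p (Aq c k j), fun j => Aq_mem hsm hc k j, ?_,
      tendsto_uniform hsm hc k, fun L hL hLc => eventually_eq hsm hc k hL hLc⟩
    exact fun L hL _ => (tendsto_uniform hsm hc k).mono hL
  · intro k l
    constructor
    · rintro ⟨φ, hφ, hk⟩
      have h1 : tws p (Ap c (k - l)) ∈ SympC0 M (omega n) := by
        refine congr_SympC0 hφ fun x hx => ?_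
        have hx' : tws p (Ap c (-l)) x ∈ M := by
          obtain ⟨K, _, _, hS⟩ := Ap_mem hsm hc (-l)
          exact hS.mapsTo hx
        have h2 : tws p (Ap c k) (tws p (Ap c (-l)) x) =
            φ (tws p (Ap c l) (tws p (Ap c (-l)) x)) := hk _ hx'
        rw [hadd, hadd] at h2
        rw [sub_eq_add_neg, h2, add_neg_cancel, tws_zero]
      exact sub_eq_zero.1 ((h0 _).1 h1)
    · rintro rfl
      exact ⟨fun x => x, id_mem_SympC0 fun z _ => rfl, fun x _ => rfl⟩

end Pool.Agent.Results.MP_2dff6e_gt.EveryDimension
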